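import Pool.Agent.Lib_MP_84c575_an.Main

/-!
# A smooth realization of a non-periodic odometer

There is a non-periodic odometer which is isomorphic, modulo null sets, to a volume preserving
`C^∞` diffeomorphism of the three-dimensional torus.
-/

open MeasureTheory Set Filter
open scoped ContDiff Topology

namespace Pool.Agent.Results.MP_84c575_an.SmoothOdometer

open Pool.Agent.Odo

theorem result :
    ∃ (q : ℕ → ℕ) (hd : ∀ k, q k ∣ q (k + 1)) (_ : ∀ k, NeZero (q k)),
      Tendsto q atTop atTop ∧
      ∃ f : (Fin 3 → UnitAddCircle) ≃ (Fin 3 → UnitAddCircle),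
        IsSmoothDiffeo f ∧ MeasurePreserving f volume volume ∧
          IsoModNull (volume : Measure (Fin 3 → UnitAddCircle)) f
            (odoHaar q hd) (fun x => x + odoOne q hd) := by
  obtain ⟨f, h1, h2, h3⟩ := main_fin
  exact ⟨qq, qq_dvd, fun k => inferInstance, qq_strictMono.tendsto_atTop, f, h1, h2, h3⟩

end Pool.Agent.Results.MP_84c575_an.SmoothOdometer
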